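import Mathlib
import Pool.Agent.Lib.MP_b969c4_an.Defs
import Pool.Agent.Lib.MP_b969c4_an.Main

set_option autoImplicit false

namespace Pool.Agent.Results.MP_b969c4_an.EveryOpenSet

open Pool.Agent.Lib.MP_b969c4_an

/-- Every open set `U` of the plane is the set of MacLane points of an entire function `f`; the
same `f` works for every domain `G` containing `U`. -/
theorem result :
    ∀ U : Set ℂ, IsOpen U → ∃ f : ℂ → ℂ, Differentiable ℂ f ∧
      ∀ G : Set ℂ, IsOpen G → IsConnected G → U ⊆ G → macLaneSet G f = U := by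
  intro U hU
  obtain ⟨f, hf, h⟩ := exists_entire_macLaneSet U hU
  exact ⟨f, hf, fun G _ _ hUG => h G hUG⟩

end Pool.Agent.Results.MP_b969c4_an.EveryOpenSet
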