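import Mathlib
import Pool.Agent.Lib.MP_b969c4_an.Defs
import Pool.Agent.Lib.MP_b969c4_an.Main

set_option autoImplicit false

namespace Pool.Agent.Results.MP_b969c4_an.NotConnected

open Pool.Agent.Lib.MP_b969c4_an

lemma not_isPreconnected_re : ¬ IsPreconnected {z : ℂ | z.re ≠ 0} := by
  intro h
  have h1 := h {z : ℂ | z.re < 0} {z : ℂ | 0 < z.re}
    (isOpen_lt Complex.continuous_re continuous_const)
    (isOpen_lt continuous_const Complex.continuous_re)
    (fun z hz => lt_or_gt_of_ne hz)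
    ⟨-1, by simp, by simp⟩ ⟨1, by simp, by simp⟩
  obtain ⟨z, -, hz1, hz2⟩ := h1
  have h2 : z.re < 0 := hz1
  have h3 : 0 < z.re := hz2
  linarith

lemma not_simplyConnected_punctured : ¬ SimplyConnectedSpace {z : ℂ // z ≠ 0} := by
  intro hsc
  have hopen : IsOpen {z : ℂ | z ≠ 0} := isOpen_ne
  have hlpc : LocallyPathConnectedSpace {z : ℂ // z ≠ 0} := hopen.locallyPathConnectedSpace
  obtain ⟨F, ⟨hF1, hF2⟩, -⟩ := Complex.isCoveringMap_exp.existsUnique_continuousMap_lifts
    (ContinuousMap.id {z : ℂ // z ≠ 0}) ⟨1, one_ne_zero⟩ (0 : ℂ) (by simp)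
  -- two lifts of the exponential path
  let g1 : ℝ → ℂ := fun t => F ⟨Complex.exp (t * Complex.I), Complex.exp_ne_zero _⟩
  let g2 : ℝ → ℂ := fun t => t * Complex.I
  have hg1 : Continuous g1 := by
    refine F.continuous.comp (Continuous.subtype_mk ?_ _)
    fun_prop
  have hg2 : Continuous g2 := by fun_prop
  have heq : (fun z : ℂ => (⟨Complex.exp z, z.exp_ne_zero⟩ : {z : ℂ // z ≠ 0})) ∘ g1 =
      (fun z : ℂ => (⟨Complex.exp z, z.exp_ne_zero⟩ : {z : ℂ // z ≠ 0})) ∘ g2 := by
    funext t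
    have := congrFun hF2 ⟨Complex.exp (t * Complex.I), Complex.exp_ne_zero _⟩
    simpa [g1, g2] using this
  have h0 : g1 0 = g2 0 := by
    have : (⟨Complex.exp ((0 : ℝ) * Complex.I), Complex.exp_ne_zero _⟩ : {z : ℂ // z ≠ 0}) =
      ⟨1, one_ne_zero⟩ := by simp
    simp only [g1, g2]
    rw [this, hF1]
    simp
  have hall := Complex.isCoveringMap_exp.eq_of_comp_eq hg1 hg2 heq 0 h0
  have h2pi := congrFun hall (2 * Real.pi)
  have : (⟨Complex.exp ((2 * Real.pi : ℝ) * Complex.I), Complex.exp_ne_zero _⟩ :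
      {z : ℂ // z ≠ 0}) = ⟨1, one_ne_zero⟩ := by
    simp [Complex.exp_two_pi_mul_I]
  simp only [g1, g2] at h2pi
  rw [this, hF1] at h2pi
  have h3 : ((2 * Real.pi : ℝ) : ℂ) * Complex.I ≠ 0 := by
    apply mul_ne_zero _ Complex.I_ne_zero
    exact_mod_cast (by positivity : (2 * Real.pi : ℝ) ≠ 0)
  exact h3 h2pi.symm

/-- There is a simply connected domain `G` such that for one analytic `f` on `G` the set of MacLane
points is disconnected, and for another it is connected but not simply connected. -/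
theorem result :
    ∃ G : Set ℂ, IsOpen G ∧ IsSimplyConnected G ∧
      (∃ f : ℂ → ℂ, AnalyticOnNhd ℂ f G ∧ ¬ IsPreconnected (macLaneSet G f)) ∧
      (∃ f : ℂ → ℂ, AnalyticOnNhd ℂ f G ∧ IsConnected (macLaneSet G f) ∧
        ¬ IsSimplyConnected (macLaneSet G f)) := by
  refine ⟨Set.univ, isOpen_univ, ?_, ?_, ?_⟩
  · have : SimplyConnectedSpace ℂ := inferInstance
    exact (Homeomorph.Set.univ ℂ).symm.toHomotopyEquiv.simplyConnectedSpace_iff.mp this
  · obtain ⟨f, hf, h⟩ := exists_entire_macLaneSet {z : ℂ | z.re ≠ 0}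
      (isOpen_ne_fun Complex.continuous_re continuous_const)
    refine ⟨f, fun z _ => hf.analyticAt z, ?_⟩
    rw [h _ (Set.subset_univ _)]
    exact not_isPreconnected_re
  · obtain ⟨f, hf, h⟩ := exists_entire_macLaneSet {z : ℂ | z ≠ 0} isOpen_ne
    refine ⟨f, fun z _ => hf.analyticAt z, ?_⟩
    rw [h _ (Set.subset_univ _)]
    refine ⟨?_, not_simplyConnected_punctured⟩
    have := isConnected_compl_singleton_of_one_lt_rank
      (Complex.rank_real_complex ▸ Nat.one_lt_ofNat) (0 : ℂ)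
    exact this

end Pool.Agent.Results.MP_b969c4_an.NotConnected
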